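import Mathlib
import Pool.Agent.H883R3.Filt.Stmts
import Pool.Agent.H883R3.Filt.Basic
import Pool.Agent.H883R3.Filt.Assembly
import Pool.Agent.H883R3.Filt.Hom
import Pool.Agent.H883R3.Filt.Fin
import Pool.Agent.H883R3.Filt.T3
import Pool.Agent.H883R3.Filt.TFour
import Pool.Agent.H883R3.Filt.T5
import Pool.Agent.H883R3.Filt.T7
import Pool.Agent.H883R3.Filt.T8
import Pool.Agent.H883R3.Filt.T9a
import Pool.Agent.H883R3.Filt.T10
import Pool.Agent.H883R3.Filt.T11a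
import Pool.Agent.H883R3.Filt.T11b
import Pool.Agent.H883R3.Filt.T11c
import Pool.Agent.H883R3.Filt.T12
import Pool.Agent.H760R3.FiltT1
import Pool.Agent.H879R3.Filt.T2
import Pool.Agent.H989R3.Filt.T9b

/-!
# Filters whose stabilizer is a maximal subgroup of the full symmetric group

Complete classification of the filters `F` on a set `Ω` for which the stabilizer `stab F` of `F`
in `Sym(Ω)` is a maximal subgroup.
-/

open Set Cardinal Filter

namespace Pool.Agent.Results.MP_60ae12_al.MaximalFilters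

open H883F

universe u

/-- Classification of the filters with maximal stabilizer: (1) on an infinite set, for
superclosed filters, maximality is equivalent to homogeneity; (2) on an infinite set, the complete
list of all filters with maximal stabilizer; (3) finite sets. -/
theorem result :
    (∀ (Ω : Type u) [Infinite Ω] (F : Filter Ω), F.NeBot → Superclosed F →
      (IsCoatom (stab F) ↔ Homog F)) ∧
    (∀ (Ω : Type u) [Infinite Ω] (F : Filter Ω), F.NeBot →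
      (IsCoatom (stab F) ↔
        (∃ (P : Set Ω) (μ : Cardinal.{u}), P.Finite ∧ P.Nonempty ∧ ℵ₀ ≤ μ ∧
          ∀ D : Set Ω, D ∈ F ↔ P ⊆ D ∧ #↥(Dᶜ) < μ) ∨
        (∃ P : Set Ω, P.Finite ∧ P.Nonempty ∧ F = 𝓟 (Pᶜ)) ∨
        (∃ (P : Set Ω) (μ : Cardinal.{u}), P.Infinite ∧ #↥P < #Ω ∧ #↥P < μ ∧
          ∀ D : Set Ω, D ∈ F ↔ #↥(P \ D) < #↥P ∧ #↥(Dᶜ) < μ) ∨
        (∃ P : Set Ω, P.Infinite ∧ #↥P < #Ω ∧ ∀ D : Set Ω, D ∈ F ↔ #↥((P ∪ D)ᶜ) < #↥P) ∨
        (∃ (G : Filter Ω) (μ : Cardinal.{u}), G.NeBot ∧ Superclosed G ∧ Homog G ∧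
          depth G < μ ∧ ∀ D : Set Ω, D ∈ F ↔ D ∈ G ∧ #↥(Dᶜ) < μ))) ∧
    (∀ (Ω : Type u) [Finite Ω] (F : Filter Ω), F.NeBot →
      (IsCoatom (stab F) ↔ ∃ P : Set Ω, F = 𝓟 P ∧ P.Nonempty ∧ (Pᶜ).Nonempty ∧
        (Nat.card Ω ≠ 2 * P.ncard ∨ Nat.card Ω = 2))) := by
  refine ⟨?_, ?_, t13⟩
  · intro Ω _ F hF hs
    exact superclosed_case t1 t2 t3 t6 t7 t8 hF hs
  · intro Ω _ F hF
    exact main t1 t2 t3 t4 t5 t6 t7 t8 t9a t9b t10 t11a t11b t11c t12 hF

end Pool.Agent.Results.MP_60ae12_al.MaximalFilters
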